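import Pool.Agent.MP_f6b137_pr.H63.MZa

/-! Marcinkiewicz-Zygmund inequality with local complex maxima for doubling measures. -/

namespace Pool.Agent.MP_f6b137_pr.H63

open MeasureTheory Filter Polynomial Pool.Agent.MP_f6b137_pr.H74
open scoped Real

theorem sum_inv_sq : ∃ Z : ℝ, 0 < Z ∧ ∀ N k : ℕ,
    ∑ j ∈ Finset.range N, 1 / (1 + |(j : ℝ) - k|) ^ 2 ≤ Z := by
  have h1 : Summable fun n : ℕ => 1 / (1 + (n : ℝ)) ^ 2 := by
    have := (summable_nat_add_iff 1).2 (Real.summable_one_div_nat_pow.2 one_lt_two)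
    refine this.congr fun n => ?_
    push_cast
    rw [add_comm]
  have h2 : Summable fun m : ℤ => 1 / (1 + |(m : ℝ)|) ^ 2 :=
    Summable.of_nat_of_neg (by simpa using h1) (by simpa using h1)
  refine ⟨∑' m : ℤ, 1 / (1 + |(m : ℝ)|) ^ 2 + 1,
    add_pos_of_nonneg_of_pos (tsum_nonneg fun _ => by positivity) one_pos, fun N k => ?_⟩
  have h3 := h2.sum_le_tsum ((Finset.range N).image fun j : ℕ => (j : ℤ) - k)
    fun _ _ => by positivity
  rw [Finset.sum_image fun a _ b _ h => by simpa using h] at h3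
  push_cast at h3
  linarith

variable {μ : Measure ℝ} {C₀ : ℝ} {s : ℕ}

theorem mass_le (h : Dbl μ C₀ s) {N k : ℕ} (j : ℕ) (hk : k < N) :
    mass μ N j ≤ C₀ * (1 + |(j : ℝ) - k|) ^ s * mass μ N k := by
  have := h.fin
  have hN : (0 : ℝ) < N := by exact_mod_cast (by omega : 0 < N)
  refine le_trans ?_ (h.dbl _ (ctr_mem hk) (π / N) (1 + |(j : ℝ) - k|)
    (div_pos Real.pi_pos hN) (by linarith [abs_nonneg ((j : ℝ) - k)]))
  refine measureReal_mono fun θ hθ => ?_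
  rw [Metric.mem_ball] at hθ
  rw [Metric.mem_closedBall]
  have h1 := dist_triangle θ (ctr N j) (ctr N k)
  rw [Real.dist_eq (ctr N j), ctr_sub] at h1
  linarith

theorem exists_max (f : ℝ[X]) (N k : ℕ) : ∃ t : ℝ, |t - ctr N k| ≤ π / N / 2 ∧
    ∀ θ : ℝ, |θ - ctr N k| ≤ π / N / 2 → |f.eval (Real.cos θ)| ≤ |f.eval (Real.cos t)| := by
  have hc : Continuous fun θ => |f.eval (Real.cos θ)| :=
    (f.continuous.comp Real.continuous_cos).abs
  obtain ⟨t, ht, h⟩ := (isCompact_closedBall (ctr N k) (π / N / 2)).exists_isMaxOn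
    ⟨_, Metric.mem_closedBall_self (by positivity)⟩ hc.continuousOn
  exact ⟨t, ht, fun θ hθ => h hθ⟩

theorem aeval_real (f : ℝ[X]) (θ : ℝ) :
    aeval (Complex.cos θ) f = ((f.eval (Real.cos θ) : ℝ) : ℂ) := by
  rw [← Complex.ofReal_cos]
  exact aeval_ofReal (K := ℂ) f _

theorem schwarz (f : ℝ[X]) {t ρ B η : ℝ} (hρ : 0 < ρ) (hB : 0 ≤ B) (hη1 : η ≤ 1)
    (hη : 4 * B * η ≤ 1)
    (hb : ∀ ζ : ℂ, ‖ζ - t‖ < ρ → ‖aeval (Complex.cos ζ) f‖ ≤ B * |f.eval (Real.cos t)|)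
    {θ : ℝ} (hθ : |θ - t| < η * ρ) : f.eval (Real.cos t) ^ 2 ≤ 4 * f.eval (Real.cos θ) ^ 2 := by
  have hd : Differentiable ℂ fun ζ : ℂ => aeval (Complex.cos ζ) f := by
    simp only [aeval_eq_sum_range, Complex.real_smul]
    fun_prop
  have hdist : ∀ x y : ℝ, dist (x : ℂ) (y : ℂ) = |x - y| := fun x y => by
    rw [dist_eq_norm, ← Complex.ofReal_sub, Complex.norm_real, Real.norm_eq_abs]
  have h1 := Complex.dist_le_div_mul_dist_of_mapsTo_ball (f := fun ζ : ℂ => aeval (Complex.cos ζ) f)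
    (c := t) (R₁ := ρ) (R₂ := 2 * (B * |f.eval (Real.cos t)|)) (z := θ) hd.differentiableOn
    (fun ζ hζ => by
      have h2 := hb ζ (by rwa [Metric.mem_ball, dist_eq_norm] at hζ)
      have h3 := hb t (by simpa using hρ)
      rw [Metric.mem_closedBall, dist_eq_norm]
      linarith [norm_sub_le (aeval (Complex.cos ζ) f) (aeval (Complex.cos t) f)])
    (by rw [Metric.mem_ball, hdist]; nlinarith)
  simp only [aeval_real] at h1
  rw [hdist, hdist] at h1
  have h4 : 2 * (B * |f.eval (Real.cos t)|) / ρ * |θ - t| ≤ |f.eval (Real.cos t)| / 2 := by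
    calc _ ≤ 2 * (B * |f.eval (Real.cos t)|) / ρ * (η * ρ) := by gcongr
      _ = (4 * B * η) * (|f.eval (Real.cos t)| / 2) := by field_simp; ring
      _ ≤ 1 * (|f.eval (Real.cos t)| / 2) := by gcongr
      _ = _ := one_mul _
  have h5 := abs_sub_abs_le_abs_sub (f.eval (Real.cos t)) (f.eval (Real.cos θ))
  rw [abs_sub_comm] at h5
  have h6 : |f.eval (Real.cos t)| ≤ 2 * |f.eval (Real.cos θ)| := by linarith
  have h7 := pow_le_pow_left₀ (abs_nonneg _) h6 2
  rw [mul_pow, sq_abs, sq_abs] at h7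
  linarith

theorem overlap [IsFiniteMeasure μ] {g : ℝ → ℝ} (hg : Integrable g μ) (h0 : ∀ θ, 0 ≤ g θ) {N : ℕ}
    (hN : 1 ≤ N) (G : Finset ℕ) :
    ∑ k ∈ G, ∫ θ in Metric.ball (ctr N k) (3 / 2 * (π / N)), g θ ∂μ ≤ 3 * ∫ θ, g θ ∂μ := by
  classical
  have hρ : 0 < π / N := div_pos Real.pi_pos (by exact_mod_cast hN)
  simp only [← integral_indicator Metric.isOpen_ball.measurableSet]
  rw [← integral_finsetSum _ fun k _ => hg.indicator Metric.isOpen_ball.measurableSet,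
    ← integral_const_mul]
  refine integral_mono (integrable_finsetSum _ fun k _ =>
    hg.indicator Metric.isOpen_ball.measurableSet) (hg.const_mul 3) fun θ => ?_
  simp only [Set.indicator_apply]
  rw [← Finset.sum_filter, Finset.sum_const, nsmul_eq_mul]
  refine mul_le_mul_of_nonneg_right ?_ (h0 θ)
  have h1 : (G.filter fun k => θ ∈ Metric.ball (ctr N k) (3 / 2 * (π / N))).card ≤
      (Finset.Icc (⌊θ / (π / N)⌋ - 1) (⌊θ / (π / N)⌋ + 1)).card := by
    refine Finset.card_le_card_of_injOn (fun k : ℕ => (k : ℤ)) (fun k hk => ?_)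
      fun a _ b _ h => by simpa using h
    have h2 := (Finset.mem_filter.1 hk).2
    rw [Metric.mem_ball, Real.dist_eq, ctr, mul_div_assoc, abs_lt] at h2
    have h3 : (k : ℝ) - 1 ≤ θ / (π / N) := by rw [le_div_iff₀ hρ]; linarith [h2.1]
    have h4 : θ / (π / N) < k + 2 := by rw [div_lt_iff₀ hρ]; linarith [h2.2]
    have h5 : (k : ℤ) - 1 ≤ ⌊θ / (π / N)⌋ := Int.le_floor.2 (by push_cast; exact h3)
    have h6 : ⌊θ / (π / N)⌋ < (k : ℤ) + 2 := Int.floor_lt.2 (by push_cast; exact h4)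
    simp only [Finset.coe_Icc, Set.mem_Icc]
    omega
  rw [Int.card_Icc] at h1
  have h7 : (⌊θ / (π / N)⌋ + 1 + 1 - (⌊θ / (π / N)⌋ - 1)).toNat = 3 := by omega
  rw [h7] at h1
  exact_mod_cast h1

theorem good_cell (h : Dbl μ C₀ s) (f : ℝ[X]) {N k : ℕ} (hk : k < N) {t B η : ℝ} (hB : 0 ≤ B)
    (hη0 : 0 < η) (hη1 : η ≤ 1) (hη : 4 * B * η ≤ 1) (ht : |t - ctr N k| ≤ π / N / 2)
    (hb : ∀ ζ : ℂ, ‖ζ - ctr N k‖ ≤ 2 * π / N →
      ‖aeval (Complex.cos ζ) f‖ ≤ B * |f.eval (Real.cos t)|) :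
    mass μ N k * f.eval (Real.cos t) ^ 2 ≤ 4 * (C₀ * (2 / η) ^ s) *
      ∫ θ in Metric.ball (ctr N k) (3 / 2 * (π / N)), f.eval (Real.cos θ) ^ 2 ∂μ := by
  have := h.fin
  have hN : (0 : ℝ) < N := by exact_mod_cast (by omega : 0 < N)
  have hρ : 0 < π / N := div_pos Real.pi_pos hN
  have hC := h.C_pos
  have hI : Integrable (fun θ => f.eval (Real.cos θ) ^ 2) μ :=
    integrable_cos (g := fun x => f.eval x ^ 2) (f.continuous.pow 2)
  have ht' : t ∈ Set.Icc 0 π := by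
    have h1 : (k : ℝ) + 1 ≤ N := by exact_mod_cast hk
    have h2 : π = N * (π / N) := by field_simp
    rw [ctr, mul_div_assoc, abs_le] at ht
    constructor <;> nlinarith [ht.1, ht.2, Nat.cast_nonneg (α := ℝ) k]
  have h1 : mass μ N k ≤ C₀ * (2 / η) ^ s * μ.real (Metric.ball t (η * (π / N))) := by
    refine le_trans ?_ (h.dbl t ht' (η * (π / N)) (2 / η) (by positivity)
      (by rw [le_div_iff₀ hη0]; linarith))
    refine measureReal_mono fun θ hθ => ?_
    rw [Metric.mem_ball] at hθ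
    rw [Metric.mem_closedBall, ← mul_assoc, div_mul_cancel₀ _ hη0.ne']
    have h2 := dist_triangle θ (ctr N k) t
    rw [Real.dist_eq (ctr N k), abs_sub_comm] at h2
    linarith
  have h2 : ∀ θ ∈ Metric.ball t (η * (π / N)),
      f.eval (Real.cos t) ^ 2 ≤ 4 * f.eval (Real.cos θ) ^ 2 := fun θ hθ =>
    schwarz f hρ hB hη1 hη (fun ζ hζ => hb ζ (by
      have h3 := norm_sub_le_norm_sub_add_norm_sub ζ t (ctr N k)
      rw [← Complex.ofReal_sub, Complex.norm_real, Real.norm_eq_abs] at h3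
      rw [mul_div_assoc]
      linarith)) hθ
  have h3 : μ.real (Metric.ball t (η * (π / N))) * f.eval (Real.cos t) ^ 2 ≤
      4 * ∫ θ in Metric.ball t (η * (π / N)), f.eval (Real.cos θ) ^ 2 ∂μ := by
    rw [← integral_const_mul, ← smul_eq_mul, ← setIntegral_const]
    exact setIntegral_mono_on (integrable_const _) (hI.const_mul 4).integrableOn
      Metric.isOpen_ball.measurableSet h2
  have h4 : ∫ θ in Metric.ball t (η * (π / N)), f.eval (Real.cos θ) ^ 2 ∂μ ≤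
      ∫ θ in Metric.ball (ctr N k) (3 / 2 * (π / N)), f.eval (Real.cos θ) ^ 2 ∂μ := by
    refine setIntegral_mono_set hI.integrableOn (Eventually.of_forall fun _ => sq_nonneg _)
      (LE.le.eventuallyLE fun θ hθ => ?_)
    rw [Metric.mem_ball] at hθ ⊢
    have h5 := dist_triangle θ t (ctr N k)
    rw [Real.dist_eq t] at h5
    nlinarith
  calc _ ≤ C₀ * (2 / η) ^ s * μ.real (Metric.ball t (η * (π / N))) * f.eval (Real.cos t) ^ 2 := by
        gcongr
    _ = C₀ * (2 / η) ^ s * (μ.real (Metric.ball t (η * (π / N))) * f.eval (Real.cos t) ^ 2) := by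
        ring
    _ ≤ C₀ * (2 / η) ^ s * (4 * ∫ θ in Metric.ball (ctr N k) (3 / 2 * (π / N)),
          f.eval (Real.cos θ) ^ 2 ∂μ) :=
        mul_le_mul_of_nonneg_left (by linarith) (by positivity)
    _ = _ := by ring

theorem swap_le (h : Dbl μ C₀ s) {Z : ℝ}
    (hZ : ∀ N k : ℕ, ∑ j ∈ Finset.range N, 1 / (1 + |(j : ℝ) - k|) ^ 2 ≤ Z) (N : ℕ) (a : ℕ → ℝ) :
    ∑ j ∈ Finset.range N, mass μ N j *
        ∑ k ∈ Finset.range N, (a k * (6 / (1 + |(j : ℝ) - k|)) ^ (s + 1)) ^ 2 ≤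
      C₀ * 36 ^ (s + 1) * Z * ∑ k ∈ Finset.range N, mass μ N k * a k ^ 2 := by
  have hC := h.C_pos
  simp only [Finset.mul_sum]
  rw [Finset.sum_comm]
  refine Finset.sum_le_sum fun k hk => ?_
  have hm := mass_nonneg μ N k
  calc _ ≤ ∑ j ∈ Finset.range N, C₀ * 36 ^ (s + 1) * (mass μ N k * a k ^ 2) *
          (1 / (1 + |(j : ℝ) - k|) ^ 2) := by
        refine Finset.sum_le_sum fun j _ => ?_
        have h1 := mass_le h j (Finset.mem_range.1 hk)
        have h2 : 1 ≤ 1 + |(j : ℝ) - k| := by linarith [abs_nonneg ((j : ℝ) - k)]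
        set m := 1 + |(j : ℝ) - k|
        have h3 : m ^ s ≤ m ^ s * m ^ s := le_mul_of_one_le_right (by positivity) (one_le_pow₀ h2)
        calc _ ≤ C₀ * (m ^ s * m ^ s) * mass μ N k * (a k * (6 / m) ^ (s + 1)) ^ 2 := by
              gcongr
              exact h1.trans (by gcongr)
          _ = _ := by
              rw [show (36 : ℝ) = 6 * 6 by norm_num, mul_pow 6 6, div_pow]
              field_simp
              ring
    _ = C₀ * 36 ^ (s + 1) * (mass μ N k * a k ^ 2) *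
          ∑ j ∈ Finset.range N, 1 / (1 + |(j : ℝ) - k|) ^ 2 := by rw [Finset.mul_sum]
    _ ≤ C₀ * 36 ^ (s + 1) * (mass μ N k * a k ^ 2) * Z := by gcongr; exact hZ N k
    _ = _ := by ring

theorem rowMZ : RowMZ := by
  classical
  intro μ C₀ s h
  have := h.fin
  have hC := h.C_pos
  obtain ⟨Z, hZ0, hZ⟩ := sum_inv_sq
  set E := Real.exp ((2 + (s + 1 : ℕ)) * (2 * π)) ^ 2 with hE
  have hE0 : 0 < E := by positivity
  set C₂ := E * (C₀ * 36 ^ (s + 1) * Z) with hC₂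
  have hC₂0 : 0 < C₂ := by positivity
  set B := √(2 * C₂) with hB
  have hB0 : 0 ≤ B := Real.sqrt_nonneg _
  set η := 1 / (4 * B + 1) with hη
  have hη0 : 0 < η := by positivity
  have hη1 : η ≤ 1 := by rw [hη, div_le_one (by positivity)]; linarith
  have hη2 : 4 * B * η ≤ 1 := by rw [hη, mul_one_div, div_le_one (by positivity)]; linarith
  refine ⟨C₂ * (2 * (4 * (C₀ * (2 / η) ^ s) * 3)), by positivity, fun N f hN hf => ?_⟩
  choose t ht hmax using exists_max f N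
  set a : ℕ → ℝ := fun k => |f.eval (Real.cos (t k))| with ha
  set S : ℕ → ℝ := fun j =>
    E * ∑ k ∈ Finset.range N, (a k * (6 / (1 + |(j : ℝ) - k|)) ^ (s + 1)) ^ 2 with hS
  have hS1 : ∀ j < N, ∀ ζ : ℂ, ‖ζ - ctr N j‖ ≤ 2 * π / N →
      ‖aeval (Complex.cos ζ) f‖ ^ 2 ≤ S j := fun j hj ζ hζ =>
    loc (s + 1) hj hf a (fun k _ θ hθ => hmax k θ hθ) hζ
  refine ⟨S, hS1, ?_⟩
  set T := ∑ k ∈ Finset.range N, mass μ N k * a k ^ 2 with hT
  have h1 : ∑ j ∈ Finset.range N, mass μ N j * S j ≤ C₂ * T := by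
    have h2 := mul_le_mul_of_nonneg_left (swap_le h hZ N a) hE0.le
    rw [Finset.mul_sum] at h2
    refine le_trans (le_of_eq (Finset.sum_congr rfl fun j _ => ?_)) (h2.trans_eq ?_)
    · simp only [hS]; ring
    · rw [hC₂]; ring
  have hS0 : ∀ j, 0 ≤ S j := fun j =>
    mul_nonneg hE0.le (Finset.sum_nonneg fun _ _ => sq_nonneg _)
  have h3 : 2 * C₂ * ∑ k ∈ (Finset.range N).filter (fun k => ¬ S k ≤ 2 * C₂ * a k ^ 2),
      mass μ N k * a k ^ 2 ≤ C₂ * T := by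
    rw [Finset.mul_sum]
    refine le_trans (Finset.sum_le_sum fun k hk => ?_) (le_trans
      (Finset.sum_le_sum_of_subset_of_nonneg (Finset.filter_subset _ _)
        fun j _ _ => mul_nonneg (mass_nonneg μ N j) (hS0 j)) h1)
    have h4 := (not_le.1 (Finset.mem_filter.1 hk).2).le
    have := mul_le_mul_of_nonneg_left h4 (mass_nonneg μ N k)
    linarith
  have hI : Integrable (fun θ => f.eval (Real.cos θ) ^ 2) μ :=
    integrable_cos (g := fun x => f.eval x ^ 2) (f.continuous.pow 2)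
  have h5 : ∑ k ∈ (Finset.range N).filter (fun k => S k ≤ 2 * C₂ * a k ^ 2),
      mass μ N k * a k ^ 2 ≤ 4 * (C₀ * (2 / η) ^ s) * (3 * ∫ θ, f.eval (Real.cos θ) ^ 2 ∂μ) := by
    refine le_trans ?_ (mul_le_mul_of_nonneg_left (overlap hI (fun _ => sq_nonneg _) hN
      ((Finset.range N).filter fun k => S k ≤ 2 * C₂ * a k ^ 2)) (by positivity))
    rw [Finset.mul_sum]
    refine Finset.sum_le_sum fun k hk => ?_
    obtain ⟨hk1, hk2⟩ := Finset.mem_filter.1 hk
    simp only [ha, sq_abs]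
    refine good_cell h f (Finset.mem_range.1 hk1) hB0 hη0 hη1 hη2 (ht k) fun ζ hζ => ?_
    refine abs_le_of_sq_le_sq' ?_ (by positivity) |>.2
    rw [mul_pow, hB, Real.sq_sqrt (by positivity)]
    exact (hS1 k (Finset.mem_range.1 hk1) ζ hζ).trans hk2
  have h6 := Finset.sum_filter_add_sum_filter_not (Finset.range N)
    (fun k => S k ≤ 2 * C₂ * a k ^ 2) fun k => mass μ N k * a k ^ 2
  rw [← hT] at h6
  have h7 : 2 * ∑ k ∈ (Finset.range N).filter (fun k => ¬ S k ≤ 2 * C₂ * a k ^ 2),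
      mass μ N k * a k ^ 2 ≤ T := by
    refine le_of_mul_le_mul_left ?_ hC₂0
    linarith
  have h8 : T ≤ 2 * (4 * (C₀ * (2 / η) ^ s) * (3 * ∫ θ, f.eval (Real.cos θ) ^ 2 ∂μ)) := by
    linarith
  calc _ ≤ C₂ * T := h1
    _ ≤ C₂ * (2 * (4 * (C₀ * (2 / η) ^ s) * (3 * ∫ θ, f.eval (Real.cos θ) ^ 2 ∂μ))) := by gcongr
    _ = _ := by ring

end Pool.Agent.MP_f6b137_pr.H63
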