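import Pool.Agent.MP_f6b137_pr.H74.Base

/-! Local bound for complex values of a trigonometric polynomial through real cell maxima. -/

namespace Pool.Agent.MP_f6b137_pr.H63

open Polynomial Complex Pool.Agent.MP_f6b137_pr.H74
open scoped Real ComplexConjugate

theorem chord (t c : ℝ) (ht : |t| ≤ π) (hc : c ∈ Set.Icc 0 π) :
    2 / π * |(|t| - c)| ≤ ‖exp (I * (t - c : ℝ)) - 1‖ := by
  rw [norm_exp_I_mul_ofReal_sub_one, Real.norm_eq_abs, abs_mul, abs_two]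
  have h0 := abs_nonneg t
  have h1 : 2 / π * |(|t| - c) / 2| ≤ |Real.sin ((|t| - c) / 2)| := by
    refine Real.mul_abs_le_abs_sin ?_
    rw [abs_le]; constructor <;> linarith [hc.1, hc.2]
  have h2 : |Real.sin ((|t| - c) / 2)| ≤ |Real.sin ((t - c) / 2)| := by
    rcases le_total 0 t with h | h
    · rw [abs_of_nonneg h]
    · rw [← sq_le_sq, Real.sin_sq_eq_half_sub, Real.sin_sq_eq_half_sub, abs_of_nonpos h,
        mul_div_cancel₀ _ two_ne_zero, mul_div_cancel₀ _ two_ne_zero, Real.cos_sub, Real.cos_sub,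
        Real.cos_neg]
      have h3 := Real.sin_nonneg_of_nonneg_of_le_pi hc.1 hc.2
      have h4 := Real.sin_nonneg_of_nonneg_of_le_pi (x := -t) (by linarith)
        (by rwa [abs_of_nonpos h] at ht)
      have h5 := mul_nonneg h4 h3
      rw [Real.sin_neg] at h5 ⊢
      linarith
  rw [abs_div, abs_two] at h1
  linarith

theorem chord' (t c x : ℝ) (ht : |t| ≤ π) (hc : c ∈ Set.Icc 0 π) :
    2 / π * |(|t| - c)| - |x - c| ≤ ‖exp (I * (t - x : ℝ)) - 1‖ := by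
  have h1 := chord t c ht hc
  have h2 : exp (I * (t - c : ℝ)) - 1 =
      (exp (I * (t - x : ℝ)) - 1) + exp (I * (t - x : ℝ)) * (exp (I * (x - c : ℝ)) - 1) := by
    rw [mul_sub, ← exp_add, mul_one, ← mul_add]
    push_cast
    ring_nf
  have h3 := norm_add_le (exp (I * (t - x : ℝ)) - 1)
    (exp (I * (t - x : ℝ)) * (exp (I * (x - c : ℝ)) - 1))
  rw [← h2, norm_mul, mul_comm I ((t - x : ℝ) : ℂ), norm_exp_ofReal_mul_I, one_mul,
    mul_comm ((t - x : ℝ) : ℂ) I] at h3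
  have h4 := Real.norm_exp_I_mul_ofReal_sub_one_le (x := x - c)
  rw [Real.norm_eq_abs] at h4
  linarith

/-- the averaged geometric sum -/
noncomputable def pk (N : ℕ) (v : ℂ) : ℂ := (∑ i ∈ Finset.range N, v ^ i) / N

theorem pk_le {N : ℕ} (hN : 1 ≤ N) {v : ℂ} (hv : ‖v‖ = 1) :
    ‖pk N v‖ ≤ 1 ∧ ‖pk N v‖ * (N * ‖v - 1‖) ≤ 2 := by
  have hN' : (0 : ℝ) < N := by exact_mod_cast hN
  rw [pk, norm_div, Complex.norm_natCast]
  constructor
  · rw [div_le_one hN']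
    refine (norm_sum_le _ _).trans ?_
    simp [hv]
  · rw [← mul_assoc, div_mul_cancel₀ _ hN'.ne', ← norm_mul, geom_sum_mul]
    refine (norm_sub_le _ _).trans ?_
    rw [norm_pow, hv, one_pow, norm_one]; norm_num

theorem pk_low {N : ℕ} (hN : 1 ≤ N) {y : ℝ} (hy : 0 ≤ y) :
    Real.exp (-(N * y)) ≤ ‖pk N (Real.exp (-y))‖ := by
  have hN' : (0 : ℝ) < N := by exact_mod_cast hN
  have e : pk N (Real.exp (-y)) = (((∑ i ∈ Finset.range N, Real.exp (-y) ^ i) / N : ℝ) : ℂ) := by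
    rw [pk]; push_cast; rfl
  rw [e, Complex.norm_real, Real.norm_eq_abs]
  refine le_trans ?_ (le_abs_self _)
  rw [le_div_iff₀ hN']
  have h : ∀ i ∈ Finset.range N, Real.exp (-(N * y)) ≤ Real.exp (-y) ^ i := by
    intro i hi
    rw [← Real.exp_nat_mul, Real.exp_le_exp]
    have : (i : ℝ) ≤ N := by exact_mod_cast (Finset.mem_range.1 hi).le
    nlinarith
  have := Finset.card_nsmul_le_sum _ _ _ h
  rw [Finset.card_range, nsmul_eq_mul] at this
  linarith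

/-- the polynomial in `u = exp (i z)` -/
noncomputable def gg (f : ℝ[X]) (n : ℕ) (u : ℂ) : ℂ :=
  ∑ k ∈ Finset.range (n + 1), (f.coeff k : ℂ) * ((u ^ 2 + 1) / 2) ^ k * u ^ (n - k)

theorem gg_exp {f : ℝ[X]} {n : ℕ} (hf : f.natDegree ≤ n) (z : ℂ) :
    gg f n (exp (z * I)) = exp (z * I) ^ n * aeval (cos z) f := by
  have h : (exp (z * I) ^ 2 + 1) / 2 = exp (z * I) * cos z := by
    rw [cos, ← mul_div_assoc, mul_add, ← exp_add (z * I) (-z * I)]
    simp [sq]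
  rw [gg, aeval_eq_sum_range' (Nat.lt_succ_of_le hf), Finset.mul_sum]
  refine Finset.sum_congr rfl fun k hk => ?_
  have hk' : k ≤ n := Nat.lt_succ_iff.1 (Finset.mem_range.1 hk)
  rw [h, mul_pow, real_smul]
  have : exp (z * I) ^ n = exp (z * I) ^ k * exp (z * I) ^ (n - k) := by
    rw [← pow_add, Nat.add_sub_cancel' hk']
  rw [this]; ring

theorem cell_of {N : ℕ} (hN : 1 ≤ N) {t : ℝ} (h0 : 0 ≤ t) (h1 : t ≤ π) :
    ∃ k < N, |t - ctr N k| ≤ π / N / 2 := by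
  have hN' : (0 : ℝ) < N := by exact_mod_cast hN
  have hρ : 0 < π / N := div_pos Real.pi_pos hN'
  have key : ∀ k : ℕ, (k : ℝ) ≤ t / (π / N) → t / (π / N) ≤ k + 1 → |t - ctr N k| ≤ π / N / 2 := by
    intro k h2 h3
    rw [le_div_iff₀ hρ] at h2
    rw [div_le_iff₀ hρ] at h3
    rw [ctr, mul_div_assoc, abs_le]
    constructor <;> linarith
  have h4 : t / (π / N) ≤ N := by
    rw [div_le_iff₀ hρ, mul_div_cancel₀ _ hN'.ne']; exact h1
  rcases h4.eq_or_lt with h5 | h5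
  · refine ⟨N - 1, by omega, key _ ?_ ?_⟩ <;> rw [h5, Nat.cast_sub hN] <;> simp
  · exact ⟨⌊t / (π / N)⌋₊, (Nat.floor_lt (by positivity)).2 h5, key _ (Nat.floor_le (by positivity))
      (Nat.lt_floor_add_one _).le⟩

theorem ctr_sub (N j k : ℕ) : |ctr N j - ctr N k| = |(j : ℝ) - k| * (π / N) := by
  have : ctr N j - ctr N k = ((j : ℝ) - k) * (π / N) := by unfold ctr; ring
  rw [this, abs_mul, abs_of_nonneg (a := π / N) (by positivity)]

theorem pk_cell {N j k : ℕ} (hj : j < N) {t x : ℝ} (ht : |t| ≤ π)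
    (hk : |(|t| - ctr N k)| ≤ π / N / 2) (hx : |x - ctr N j| ≤ 2 * π / N) :
    ‖pk N (exp (I * (t - x : ℝ)))‖ ≤ 6 / (1 + |(j : ℝ) - k|) := by
  have hN : 1 ≤ N := by omega
  have hN' : (0 : ℝ) < N := by exact_mod_cast hN
  have hπ := Real.pi_pos
  obtain ⟨h1, h2⟩ := pk_le hN (v := exp (I * (t - x : ℝ))) (by
    rw [mul_comm, norm_exp_ofReal_mul_I])
  have h3 := chord' t (ctr N j) x ht (ctr_mem hj)
  have h4 : (|(j : ℝ) - k| - 1 / 2) * (π / N) ≤ |(|t| - ctr N j)| := by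
    have := abs_sub_le (ctr N j) |t| (ctr N k)
    rw [ctr_sub, abs_sub_comm (ctr N j)] at this
    linarith
  have h5 : 2 * |(j : ℝ) - k| - 8 ≤ N * ‖exp (I * (t - x : ℝ)) - 1‖ := by
    have h6 : 2 / π * ((|(j : ℝ) - k| - 1 / 2) * (π / N)) - 2 * π / N ≤
        ‖exp (I * (t - x : ℝ)) - 1‖ := by
      have := mul_le_mul_of_nonneg_left h4 (show 0 ≤ 2 / π by positivity)
      linarith
    have h7 : 2 / π * ((|(j : ℝ) - k| - 1 / 2) * (π / N)) - 2 * π / N =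
        (2 * |(j : ℝ) - k| - 1 - 2 * π) / N := by field_simp
    rw [h7, div_le_iff₀ hN'] at h6
    linarith [Real.pi_lt_d2]
  rw [le_div_iff₀ (by positivity)]
  nlinarith [norm_nonneg (pk N (exp (I * (t - x : ℝ))))]

theorem loc_up {f : ℝ[X]} {N j : ℕ} (r : ℕ) (hj : j < N) (hf : f.natDegree ≤ 2 * N) (a : ℕ → ℝ)
    (ha : ∀ k < N, ∀ θ : ℝ, |θ - ctr N k| ≤ π / N / 2 → |f.eval (Real.cos θ)| ≤ a k) (M : ℝ)
    (hM : ∀ k < N, a k * (6 / (1 + |(j : ℝ) - k|)) ^ r ≤ M) {ζ : ℂ} (hy : 0 ≤ ζ.im)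
    (hζ : ‖ζ - ctr N j‖ ≤ 2 * π / N) :
    ‖aeval (cos ζ) f‖ ≤ Real.exp ((2 + r) * (2 * π)) * M := by
  have hN : 1 ≤ N := by omega
  have hN' : (0 : ℝ) < N := by exact_mod_cast hN
  have hx : |ζ.re - ctr N j| ≤ 2 * π / N := by
    simpa using (abs_re_le_norm (ζ - ctr N j)).trans hζ
  have hy' : N * ζ.im ≤ 2 * π := by
    have h1 : |ζ.im| ≤ 2 * π / N := by simpa using (abs_im_le_norm (ζ - ctr N j)).trans hζ
    rw [abs_of_nonneg hy, le_div_iff₀ hN'] at h1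
    linarith
  set H : ℂ → ℂ := fun u => gg f (2 * N) u * pk N (u * exp (-(I * ζ.re))) ^ r with hH
  have hd : Differentiable ℂ H := by
    simp only [hH, gg, pk]
    fun_prop
  have hb : ∀ u ∈ frontier (Metric.ball (0 : ℂ) 1), ‖H u‖ ≤ M := by
    intro u hu
    rw [frontier_ball _ one_ne_zero, mem_sphere_zero_iff_norm] at hu
    have hu' : u = exp (arg u * I) := by
      have := norm_mul_exp_arg_mul_I u
      rw [hu] at this
      simpa using this.symm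
    obtain ⟨k, hk, hk'⟩ := cell_of hN (abs_nonneg (arg u)) (abs_arg_le_pi u)
    have h1 := ha k hk _ hk'
    have h2 := pk_cell hj (abs_arg_le_pi u) hk' hx
    have h3 : u * exp (-(I * ζ.re)) = exp (I * (arg u - ζ.re : ℝ)) := by
      conv_lhs => rw [hu', ← exp_add]
      push_cast
      ring_nf
    have h4 : ‖gg f (2 * N) u‖ = |f.eval (Real.cos |arg u|)| := by
      conv_lhs => rw [hu']
      rw [gg_exp hf, norm_mul, norm_pow, norm_exp_ofReal_mul_I, one_pow, one_mul, ← ofReal_cos,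
        Real.cos_abs]
      exact (congrArg norm (aeval_ofReal (K := ℂ) f _)).trans (Complex.norm_real _)
    simp only [hH]
    rw [norm_mul, norm_pow, h3, h4]
    refine le_trans ?_ (hM k hk)
    gcongr
    exact (abs_nonneg _).trans h1
  have hu : ‖exp (ζ * I)‖ = Real.exp (-ζ.im) := by rw [norm_exp]; simp
  have h5 := norm_le_of_forall_mem_frontier_norm_le Metric.isBounded_ball hd.diffContOnCl hb
    (z := exp (ζ * I)) (by
      rw [closure_ball _ one_ne_zero, mem_closedBall_zero_iff, hu, Real.exp_le_one_iff]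
      linarith)
  have h6 : exp (ζ * I) * exp (-(I * ζ.re)) = (Real.exp (-ζ.im) : ℝ) := by
    rw [← exp_add, ofReal_exp]
    congr 1
    conv_lhs => rw [← re_add_im ζ]
    simp only [add_re, ofReal_re, mul_re, I_re, mul_zero, ofReal_im, I_im, mul_one, sub_self,
      add_zero]
    push_cast
    linear_combination (ζ.im : ℂ) * I_mul_I
  simp only [hH] at h5
  rw [gg_exp hf, h6, norm_mul, norm_mul, norm_pow, norm_pow, hu] at h5
  have h7 := pow_le_pow_left₀ (Real.exp_pos _).le (pk_low hN hy) r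
  have h8 : Real.exp (-((2 + r) * (2 * π))) ≤
      Real.exp (-ζ.im) ^ (2 * N) * Real.exp (-(N * ζ.im)) ^ r := by
    rw [← Real.exp_nat_mul, ← Real.exp_nat_mul, ← Real.exp_add, Real.exp_le_exp]
    push_cast
    nlinarith [Nat.cast_nonneg (α := ℝ) r]
  have h9 : Real.exp (-((2 + r) * (2 * π))) * ‖aeval (cos ζ) f‖ ≤ M := by
    refine le_trans ?_ h5
    calc _ ≤ Real.exp (-ζ.im) ^ (2 * N) * Real.exp (-(N * ζ.im)) ^ r * ‖aeval (cos ζ) f‖ := by
          gcongr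
      _ = Real.exp (-ζ.im) ^ (2 * N) * ‖aeval (cos ζ) f‖ * Real.exp (-(N * ζ.im)) ^ r := by ring
      _ ≤ _ := by gcongr
  rw [Real.exp_neg, inv_mul_le_iff₀ (Real.exp_pos _)] at h9
  exact h9

theorem loc {f : ℝ[X]} {N j : ℕ} (r : ℕ) (hj : j < N) (hf : f.natDegree ≤ 2 * N) (a : ℕ → ℝ)
    (ha : ∀ k < N, ∀ θ : ℝ, |θ - ctr N k| ≤ π / N / 2 → |f.eval (Real.cos θ)| ≤ a k) {ζ : ℂ}
    (hζ : ‖ζ - ctr N j‖ ≤ 2 * π / N) :
    ‖aeval (cos ζ) f‖ ^ 2 ≤ Real.exp ((2 + r) * (2 * π)) ^ 2 *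
      ∑ k ∈ Finset.range N, (a k * (6 / (1 + |(j : ℝ) - k|)) ^ r) ^ 2 := by
  set T := ∑ k ∈ Finset.range N, (a k * (6 / (1 + |(j : ℝ) - k|)) ^ r) ^ 2 with hT
  have hT0 : 0 ≤ T := Finset.sum_nonneg fun _ _ => sq_nonneg _
  have hM : ∀ k < N, a k * (6 / (1 + |(j : ℝ) - k|)) ^ r ≤ √T := fun k hk =>
    Real.le_sqrt_of_sq_le (Finset.single_le_sum
      (f := fun k : ℕ => (a k * (6 / (1 + |(j : ℝ) - k|)) ^ r) ^ 2) (fun _ _ => sq_nonneg _)
      (Finset.mem_range.2 hk))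
  have h : ‖aeval (cos ζ) f‖ ≤ Real.exp ((2 + r) * (2 * π)) * √T := by
    rcases le_total 0 ζ.im with hy | hy
    · exact loc_up r hj hf a ha _ hM hy hζ
    · have := loc_up r hj hf a ha _ hM (ζ := conj ζ) (by simpa using hy) (by
        rwa [← conj_ofReal, ← map_sub, norm_conj])
      rwa [cos_conj, aeval_conj, norm_conj] at this
  have := pow_le_pow_left₀ (norm_nonneg _) h 2
  rwa [mul_pow, Real.sq_sqrt hT0] at this

end Pool.Agent.MP_f6b137_pr.H63
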